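import Pool.Agent.H92.RR.Defs

/-!
# MP_34b97f_an: targets of the modules (board rr_modules)
-/

open MeasureTheory ProbabilityTheory Filter Topology Finset
open scoped ENNReal

universe u

namespace Pool.Agent.H92.RR

open Pool.Agent.H89.MT

/-! ## Probability: decomposition of the logarithmic averages -/

/-- (RFAC) factorisation of a monomial into the contributions of the primes -/
def T_FAC : Prop := ∀ u : ℕ → I1, IsMult u → ∀ (H : Finset ℕ) (a : ℕ → ℕ) (M n : ℕ), 0 < n →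
  (∀ h ∈ H, n + h ≤ M) → mono u H a n = ∏ p ∈ pr M, phi u H a p n

/-- (RIND) expectation of a product of functions of the values at powers of different primes -/
def T_IND : Prop := ∀ (Ω : Type u) [MeasurableSpace Ω] (P : Measure Ω) [IsProbabilityMeasure P]
  (u : Ω → ℕ → I1), RandomReal P u → ∀ (S : Finset ℕ), (∀ p ∈ S, p.Prime) →
  ∀ g : ℕ → (ℕ → I1) → ℝ, (∀ p, Measurable (g p)) →
  ∫ ω, ∏ p ∈ S, g p (fun k => u ω (p ^ (k + 1))) ∂P =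
    ∏ p ∈ S, ∫ ω, g p (fun k => u ω (p ^ (k + 1))) ∂P

/-- (RPHI) odd powers of a random number in `[-1,1]` -/
def T_PHI : Prop := ∀ (Ω : Type u) [MeasurableSpace Ω] (P : Measure Ω) [IsProbabilityMeasure P]
  (x : Ω → I1), Measurable x → ∀ a : ℕ, Odd a →
  |∫ ω, (x ω : ℝ) ^ a ∂P| ≤ Real.exp (-((1 - |∫ ω, (x ω : ℝ) ∂P|) / 2))

/-- (RORT) orthogonality -/
def T_ORT : Prop := ∀ (Ω : Type u) [MeasurableSpace Ω] (P : Measure Ω) [IsProbabilityMeasure P]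
  (u : Ω → ℕ → I1), RandomReal P u → ∀ (H : Finset ℕ) (a : ℕ → ℕ) (y M n m : ℕ), 0 < n → 0 < m →
  (∀ h ∈ H, n + h ≤ M) → (∀ h ∈ H, m + h ≤ M) →
  (∀ p, p.Prime → y < p → ¬ (p ∣ PP H n ∧ p ∣ PP H m)) →
  ∫ ω, (mono (u ω) H a n - cond P u H a y M n ω) * (mono (u ω) H a m - cond P u H a y M m ω) ∂P = 0

/-- (RVAR) the variance which comes from the primes `p > y` -/
def T_VAR : Prop := ∀ H : Finset ℕ, ∃ C : ℝ, 0 < C ∧
  ∀ (Ω : Type u) [MeasurableSpace Ω] (P : Measure Ω) [IsProbabilityMeasure P]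
  (w : Ω → ℕ → ℝ), (∀ n, Measurable fun ω => w ω n) → (∀ ω n, |w ω n| ≤ 2) →
  ∀ y N : ℕ, 1 ≤ y → 3 ≤ N →
  (∀ n m : ℕ, 0 < n → n ≤ N → 0 < m → m ≤ N →
    (∀ p, p.Prime → y < p → ¬ (p ∣ PP H n ∧ p ∣ PP H m)) → ∫ ω, w ω n * w ω m ∂P = 0) →
  ∫ ω, lavg N (w ω) ^ 2 ∂P ≤ C / y

/-- (RZB) the averages of the conditioned monomials -/
def T_ZB : Prop := ∀ (Ω : Type u) [MeasurableSpace Ω] (P : Measure Ω) [IsProbabilityMeasure P]
  (u : Ω → ℕ → I1), RandomReal P u → ∀ (H : Finset ℕ) (a : ℕ → ℕ), (∃ h ∈ H, Odd (a h)) →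
  ∃ C c : ℝ, 0 < C ∧ 0 < c ∧ ∀ y N : ℕ, 1 ≤ y → 3 ≤ N → ∀ ω,
    |lavg N (fun n => cond P u H a y (N + H.sup id) n ω)| ≤
      C * Real.exp (-(c * (SS (wt P u) N - SS (wt P u) y)))

/-- (RKEY) the logarithmic average of a monomial is the sum of a small deterministic bound and a
random variable of small variance -/
def T_KEY : Prop := ∀ (Ω : Type u) [MeasurableSpace Ω] (P : Measure Ω) [IsProbabilityMeasure P]
  (u : Ω → ℕ → I1), RandomReal P u → ∀ (H : Finset ℕ) (a : ℕ → ℕ), (∃ h ∈ H, Odd (a h)) →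
  ∃ C c : ℝ, 0 < C ∧ 0 < c ∧ ∀ y N : ℕ, 1 ≤ y → 3 ≤ N →
    ∃ W : Ω → ℝ, Measurable W ∧ (∀ ω, |W ω| ≤ C) ∧ ∫ ω, W ω ^ 2 ∂P ≤ C / y ∧
      ∀ ω, |lavg N (mono (u ω) H a) - W ω| ≤
        C * Real.exp (-(c * (SS (wt P u) N - SS (wt P u) y)))

/-- (RAS) almost sure convergence along all `N` -/
def T_AS : Prop := ∀ (Ω : Type u) [MeasurableSpace Ω] (P : Measure Ω) [IsProbabilityMeasure P]
  (x : Ω → ℕ → ℝ), (∀ n, Measurable fun ω => x ω n) → (∀ ω n, |x ω n| ≤ 1) →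
  ∀ (S : ℕ → ℝ), Monotone S → ∀ C c : ℝ, 0 < C → 0 < c →
  (∀ y N : ℕ, 1 ≤ y → 3 ≤ N → ∃ W : Ω → ℝ, Measurable W ∧ (∀ ω, |W ω| ≤ C) ∧
      ∫ ω, W ω ^ 2 ∂P ≤ C / y ∧ ∀ ω, |lavg N (x ω) - W ω| ≤ C * Real.exp (-(c * (S N - S y)))) →
  ∀ δ : ℝ, 0 < δ →
  (∀ K : ℝ, ∀ᶠ N : ℕ in atTop,
    K ≤ S N - S ⌊Real.log (Real.log N) ^ (1 + δ)⌋₊) →
  ∀ᵐ ω ∂P, Tendsto (fun N => lavg N (x ω)) atTop (𝓝 0)

/-- (RSQ) convergence in mean square -/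
def T_SQ : Prop := ∀ (Ω : Type u) [MeasurableSpace Ω] (P : Measure Ω) [IsProbabilityMeasure P]
  (x : Ω → ℕ → ℝ), (∀ n, Measurable fun ω => x ω n) → (∀ ω n, |x ω n| ≤ 1) →
  ∀ (S : ℕ → ℝ) (C c : ℝ), 0 < C → 0 < c →
  (∀ y N : ℕ, 1 ≤ y → 3 ≤ N → ∃ W : Ω → ℝ, Measurable W ∧ (∀ ω, |W ω| ≤ C) ∧
      ∫ ω, W ω ^ 2 ∂P ≤ C / y ∧ ∀ ω, |lavg N (x ω) - W ω| ≤ C * Real.exp (-(c * (S N - S y)))) →
  Tendsto S atTop atTop → Tendsto (fun N => ∫ ω, lavg N (x ω) ^ 2 ∂P) atTop (𝓝 0)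

/-- (RSUB) a common subsequence for countably many sequences which tend to `0` in mean square -/
def T_SUB : Prop := ∀ (Ω : Type u) [MeasurableSpace Ω] (P : Measure Ω) [IsProbabilityMeasure P]
  (ι : Type) [Countable ι] (x : ι → ℕ → Ω → ℝ), (∀ i n, Measurable (x i n)) →
  (∀ i n, ∃ C, ∀ ω, |x i n ω| ≤ C) →
  (∀ i, Tendsto (fun n => ∫ ω, x i n ω ^ 2 ∂P) atTop (𝓝 0)) →
  ∃ N : ℕ → ℕ, Tendsto N atTop atTop ∧ ∀ᵐ ω ∂P, ∀ i, Tendsto (fun k => x i (N k) ω) atTop (𝓝 0)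

/-! ## From monomials to genericity -/

/-- (RSHM) monomials with arbitrary integer shifts -/
def T_SHM : Prop := ∀ (u : ℕ → I1) (N : ℕ → ℕ), Tendsto N atTop atTop →
  (∀ (H : Finset ℕ) (a : ℕ → ℕ), (∃ h ∈ H, Odd (a h)) →
    Tendsto (fun k => lavg (N k) (mono u H a)) atTop (𝓝 0)) →
  ∀ (J : Finset ℤ) (a : ℤ → ℕ), (∃ j ∈ J, Odd (a j)) →
    Tendsto (fun k => lavg (N k) fun n => ∏ j ∈ J, (pt u n j : ℝ) ^ a j) atTop (𝓝 0)

/-- (RSWX) the polynomials in the coordinates are dense in `C([-1,1]^ℤ)` -/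
def T_SWX : Prop := ∀ (F : C(X, ℝ)) (ε : ℝ), 0 < ε →
  ∃ (m : ℕ) (J : Fin m → Finset ℤ) (a : Fin m → ℤ → ℕ) (c : Fin m → ℝ),
    ∀ x : X, |F x - ∑ i, c i * ∏ j ∈ J i, (x j : ℝ) ^ a i j| ≤ ε

/-- (RSTM) the moments of `star α` -/
def T_STM : Prop := ∀ (α : Measure X), IsProbabilityMeasure α → IsProbabilityMeasure (star α) ∧
  ∀ (J : Finset ℤ) (a : ℤ → ℕ),
  ((∃ j ∈ J, Odd (a j)) → ∫ x, ∏ j ∈ J, (x j : ℝ) ^ a j ∂(star α) = 0) ∧
  ((∀ j ∈ J, Even (a j)) →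
    ∫ x, ∏ j ∈ J, (x j : ℝ) ^ a j ∂(star α) = ∫ x, ∏ j ∈ J, (x j : ℝ) ^ a j ∂α)

/-- (RGST) genericity for `star α` -/
def T_GST : Prop := ∀ (u : ℕ → I1) (α : Measure X), IsProbabilityMeasure α →
  Generic (fun n => ab (u n)) α → ∀ N : ℕ → ℕ, Tendsto N atTop atTop →
  (∀ (H : Finset ℕ) (a : ℕ → ℕ), (∃ h ∈ H, Odd (a h)) →
    Tendsto (fun k => lavg (N k) (mono u H a)) atTop (𝓝 0)) →
  ∀ F : C(X, ℝ), Tendsto (fun k => lavg (N k) fun n => F (pt u n)) atTop (𝓝 (∫ x, F x ∂(star α)))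

/-! ## Rational almost periodicity and odometers -/

/-- (RRAP) nonnegative multiplicative functions are rationally almost periodic -/
def T_RAP : Prop := ∀ u : ℕ → I1, IsMult u → (∀ n, 0 ≤ (u n : ℝ)) → RAP u

/-- (RODG) rationally almost periodic functions are generic -/
def T_ODG : Prop := ∀ u : ℕ → I1, RAP u → ∃ α : Measure X, IsProbabilityMeasure α ∧ Generic u α

/-- (RPRS) a measure for which a function is generic is invariant -/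
def T_PRS : Prop := ∀ (u : ℕ → I1) (α : Measure X), IsProbabilityMeasure α → Generic u α →
  MeasurePreserving shift α α

/-- (RODE) the measure of a rationally almost periodic function is ergodic -/
def T_ODE : Prop := ∀ (u : ℕ → I1) (α : Measure X), IsProbabilityMeasure α → RAP u → Generic u α →
  Ergodic shift α

/-- (RODC) the coordinates are uniformly almost periodic along multiples of some `q` -/
def T_ODC : Prop := ∀ (u : ℕ → I1) (α : Measure X), IsProbabilityMeasure α → RAP u → Generic u α →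
  ∀ ε : ℝ, 0 < ε → ∃ q : ℕ, 0 < q ∧ ∀ (m : ℕ) (j : ℤ), ∫ x, |(x (j + q * m) : ℝ) - x j| ∂α ≤ ε

/-- (RODS) the eigenfunctions with roots of unity as eigenvalues span a dense subspace -/
def T_ODS : Prop := ∀ α : Measure X, IsProbabilityMeasure α → MeasurePreserving shift α α →
  (∀ ε : ℝ, 0 < ε → ∃ q : ℕ, 0 < q ∧
    ∀ (m : ℕ) (j : ℤ), ∫ x, |(x (j + q * m) : ℝ) - x j| ∂α ≤ ε) →
  ∀ F : X → ℂ, MemLp F 2 α → ∀ ε : ℝ, 0 < ε →
    ∃ (m : ℕ) (G : Fin m → X → ℂ) (ζ : Fin m → ℂ),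
      (∀ i, MemLp (G i) 2 α ∧ (∃ q : ℕ, 0 < q ∧ ζ i ^ q = 1) ∧
        (fun y => G i (shift y)) =ᵐ[α] fun y => ζ i * G i y) ∧
      eLpNorm (fun y => F y - ∑ i, G i y) 2 α ≤ ENNReal.ofReal ε

/-! ## Ergodicity of `star α` -/

/-- (RCER) a criterion for ergodicity -/
def T_CER : Prop := ∀ κ : Measure X, IsProbabilityMeasure κ → MeasurePreserving shift κ κ →
  (∀ (J J' : Finset ℤ) (a a' : ℤ → ℕ),
    Tendsto (fun M : ℕ => (∑ m ∈ range M, ∫ x, (∏ j ∈ J, (x j : ℝ) ^ a j) *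
      ∏ j ∈ J', (x (j + m) : ℝ) ^ a' j ∂κ) / M) atTop
      (𝓝 ((∫ x, ∏ j ∈ J, (x j : ℝ) ^ a j ∂κ) * ∫ x, ∏ j ∈ J', (x j : ℝ) ^ a' j ∂κ))) →
  Ergodic shift κ

/-- (RCEA) the averages of the correlations in an ergodic system -/
def T_CEA : Prop := ∀ α : Measure X, IsProbabilityMeasure α → Ergodic shift α →
  ∀ (J J' : Finset ℤ) (a a' : ℤ → ℕ),
    Tendsto (fun M : ℕ => (∑ m ∈ range M, ∫ x, (∏ j ∈ J, (x j : ℝ) ^ a j) *
      ∏ j ∈ J', (x (j + m) : ℝ) ^ a' j ∂α) / M) atTop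
      (𝓝 ((∫ x, ∏ j ∈ J, (x j : ℝ) ^ a j ∂α) * ∫ x, ∏ j ∈ J', (x j : ℝ) ^ a' j ∂α))

/-- (RSTS) `star α` is invariant -/
def T_STS : Prop := ∀ α : Measure X, IsProbabilityMeasure α → MeasurePreserving shift α α →
  MeasurePreserving shift (star α) (star α)

/-- (RSTE) `star α` is ergodic -/
def T_STE : Prop := ∀ α : Measure X, IsProbabilityMeasure α → Ergodic shift α →
  Ergodic shift (star α)

/-! ## Isomorphism -/

/-- (RNZ) the zeros of a multiplicative function with positive values -/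
def T_NZ : Prop := ∀ u : ℕ → I1, IsMult u → (∀ n, 0 < n → 0 < (u n : ℝ)) →
  Tendsto (fun N => lavg N fun n => (u n : ℝ)) atTop (𝓝 0) ∨
  ∀ ε : ℝ, 0 < ε → ∃ c : ℝ, 0 < c ∧
    ∀ᶠ N : ℕ in atTop, lavg N (fun n => if (u n : ℝ) < c then 1 else 0) ≤ ε

/-- (RNZD) mean value zero: the one-point system -/
def T_NZD : Prop := ∀ (u : ℕ → I1) (α : Measure X), IsProbabilityMeasure α → Generic u α →
  (∀ n, 0 ≤ (u n : ℝ)) → Tendsto (fun N => lavg N fun n => (u n : ℝ)) atTop (𝓝 0) →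
  α = Measure.dirac fun _ => z1

/-- (RNZP) small values are rare: the coordinates are almost surely positive -/
def T_NZP : Prop := ∀ (u : ℕ → I1) (α : Measure X), IsProbabilityMeasure α → Generic u α →
  (∀ n, 0 ≤ (u n : ℝ)) →
  (∀ ε : ℝ, 0 < ε → ∃ c : ℝ, 0 < c ∧
    ∀ᶠ N : ℕ in atTop, lavg N (fun n => if (u n : ℝ) < c then 1 else 0) ≤ ε) →
  ∀ᵐ x ∂α, ∀ j : ℤ, 0 < (x j : ℝ)

/-- (RISO) positive coordinates: `star α` is isomorphic to a product -/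
def T_ISO : Prop := ∀ α : Measure X, IsProbabilityMeasure α → IsOdometer shift α →
  (∀ᵐ x ∂α, ∀ j : ℤ, 0 < (x j : ℝ)) → IsBO (star α)

/-- (RDIR) the one-point system -/
def T_DIR : Prop := IsBO (star (Measure.dirac fun _ => z1))

/-! ## The theorem -/

/-- (MAIN) -/
def T_MAIN : Prop := ∀ (Ω : Type u) [MeasurableSpace Ω] (P : Measure Ω) [IsProbabilityMeasure P]
  (u : Ω → ℕ → I1), RandomReal P u →
  (Tendsto (SS (wt P u)) atTop atTop →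
    ∀ᵐ ω ∂P, ∃ κ : Measure X, Pred (u ω) κ ∧ QuasiGeneric (u ω) κ) ∧
  ∀ δ : ℝ, 0 < δ →
  (∀ K : ℝ, ∀ᶠ N : ℕ in atTop, K ≤ ∑ p ∈ (Icc 1 N).filter (fun p : ℕ => p.Prime ∧
      Real.log (Real.log N) ^ (1 + δ) < (p : ℝ)), (1 - |∫ ω, (u ω p : ℝ) ∂P|) / p) →
  ∀ᵐ ω ∂P, ∃ κ : Measure X, Pred (u ω) κ ∧ Generic (u ω) κ ∧
    ∀ κ' : Measure X, QuasiGeneric (u ω) κ' ↔ κ' = κ

end Pool.Agent.H92.RR
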