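import Pool.Agent.H92.RR.Main
import Pool.Agent.H33.MT.EUL
import Pool.Agent.H33.MT.MERT
import Pool.Agent.H33.MT.OM
import Pool.Agent.H51.MT.INT
import Pool.Agent.H60.MT.BER
import Pool.Agent.H74.MT.UNQ
import Pool.Agent.H86.MT.DIV
import Pool.Agent.H1.RR.RCER
import Pool.Agent.H1.RR.RISO
import Pool.Agent.H7.RR.RODS
import Pool.Agent.H11.RR.RSTE
import Pool.Agent.H11.RR.RSWX
import Pool.Agent.H13.RR.RODE
import Pool.Agent.H23.RR.RDIR
import Pool.Agent.H23.RR.RNZD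
import Pool.Agent.H23.RR.RPRS
import Pool.Agent.H23.RR.RSTS
import Pool.Agent.H36.RR.RNZ
import Pool.Agent.H37.RR.CEA
import Pool.Agent.H41.RR.RODG
import Pool.Agent.H41.RR.RSTM
import Pool.Agent.H49.RR.RRAP
import Pool.Agent.H67.RR.SHM
import Pool.Agent.H67.RR.ZB
import Pool.Agent.H68.RR.RGST
import Pool.Agent.H75.RR.RAS
import Pool.Agent.H75.RR.RFAC
import Pool.Agent.H75.RR.RORT
import Pool.Agent.H75.RR.RPHI
import Pool.Agent.H75.RR.RSUB
import Pool.Agent.H75.RR.RVAR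
import Pool.Agent.H79.RR.NZP
import Pool.Agent.H95.RR.RODC

/-!
# MP_34b97f_an: random multiplicative functions with values in `[-1,1]`. All modules together
-/

open MeasureTheory ProbabilityTheory Filter Topology Finset
open scoped ENNReal

universe u

namespace Pool.Agent.H92.RR

open Pool.Agent.H89.MT

theorem all_STM : T_STM := Pool.Agent.H41.RR.pf_STM Pool.Agent.H60.MT.pf_BER

theorem all_SWX : T_SWX := Pool.Agent.H11.RR.pf_SWX

theorem all_CER : T_CER := Pool.Agent.H1.RR.pf_RCER all_SWX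

theorem all_GST : T_GST :=
  Pool.Agent.H68.RR.pf_GST Pool.Agent.H67.RR.pf_SHM all_SWX all_STM

theorem all_ODE : T_ODE := Pool.Agent.H13.RR.pf_RODE all_CER Pool.Agent.H23.RR.pf_RPRS

theorem all_STE : T_STE :=
  Pool.Agent.H11.RR.pf_STE all_CER Pool.Agent.H37.RR.pf_CEA Pool.Agent.H23.RR.pf_RSTS all_STM

theorem all_RAP : T_RAP := Pool.Agent.H49.RR.pf_RAP Pool.Agent.H33.MT.pf_MERT
  Pool.Agent.H33.MT.pf_EUL Pool.Agent.H86.MT.pf_DIV

theorem all_NZ : T_NZ := Pool.Agent.H36.RR.pf_NZ Pool.Agent.H33.MT.pf_MERT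
  Pool.Agent.H33.MT.pf_EUL Pool.Agent.H86.MT.pf_DIV

/-- the structure theorem for the predicted measure of a given function -/
theorem all_pred (v : ℕ → I1) (hv : IsMult v) :
    ∃ α : Measure X, IsProbabilityMeasure α ∧ Generic (fun n => ab (v n)) α ∧
      Pred v (star α) :=
  pred_of all_RAP Pool.Agent.H41.RR.pf_ODG Pool.Agent.H23.RR.pf_RPRS all_ODE
    Pool.Agent.H95.RR.pf_RODC (Pool.Agent.H7.RR.pf_RODS all_SWX) all_STM all_STE all_NZ
    Pool.Agent.H23.RR.pf_RNZD Pool.Agent.H79.RR.pf_NZP Pool.Agent.H1.RR.pf_RISO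
    Pool.Agent.H23.RR.pf_RDIR v hv

theorem all_KEY : T_KEY.{u} :=
  Pool.Agent.H67.RR.pf_KEY
    (Pool.Agent.H75.RR.pf_ORT Pool.Agent.H75.RR.pf_FAC Pool.Agent.H75.RR.pf_IND)
    Pool.Agent.H75.RR.pf_VAR
    (Pool.Agent.H67.RR.pf_ZB Pool.Agent.H75.RR.pf_PHI
      (Pool.Agent.H33.MT.pf_OM Pool.Agent.H33.MT.pf_MERT Pool.Agent.H33.MT.pf_EUL))

theorem all_MAIN : T_MAIN.{u} :=
  main all_KEY (Pool.Agent.H75.RR.pf_AS Pool.Agent.H51.MT.pf_INT) Pool.Agent.H75.RR.pf_SQ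
    Pool.Agent.H75.RR.pf_SUB all_GST Pool.Agent.H74.MT.pf_UNQ all_RAP
    Pool.Agent.H41.RR.pf_ODG Pool.Agent.H23.RR.pf_RPRS all_ODE Pool.Agent.H95.RR.pf_RODC
    (Pool.Agent.H7.RR.pf_RODS all_SWX) all_STM all_STE all_NZ Pool.Agent.H23.RR.pf_RNZD
    Pool.Agent.H79.RR.pf_NZP Pool.Agent.H1.RR.pf_RISO Pool.Agent.H23.RR.pf_RDIR

end Pool.Agent.H92.RR
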