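import Pool.Agent.H92.RR.Targets

/-!
# MP_34b97f_an: random multiplicative functions with values in `[-1,1]`. Assembly
-/

open MeasureTheory ProbabilityTheory Filter Topology Finset
open scoped ENNReal

universe u

namespace Pool.Agent.H92.RR

open Pool.Agent.H89.MT

theorem abs_I1 (x : I1) : |(x : ℝ)| ≤ 1 := abs_le.2 ⟨x.2.1, x.2.2⟩

instance : IsProbabilityMeasure bern := by unfold bern; infer_instance

theorem mono_abs_le (u : ℕ → I1) (H : Finset ℕ) (a : ℕ → ℕ) (n : ℕ) : |mono u H a n| ≤ 1 := by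
  unfold mono
  rw [Finset.abs_prod]
  refine Finset.prod_le_one (fun _ _ => abs_nonneg _) fun h _ => ?_
  rw [abs_pow]
  exact pow_le_one₀ (abs_nonneg _) (abs_I1 _)

theorem mono_meas {Ω : Type u} [MeasurableSpace Ω] (u : Ω → ℕ → I1)
    (hu : ∀ n, Measurable fun ω => u ω n) (H : Finset ℕ) (a : ℕ → ℕ) (n : ℕ) :
    Measurable fun ω => mono (u ω) H a n := by
  unfold mono
  exact Finset.measurable_fun_prod _ fun h _ =>
    (measurable_subtype_coe.comp (hu (n + h))).pow_const _

/-- the structure theorem for a given function -/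
theorem pred_of (hRAP : T_RAP) (hODG : T_ODG) (hPRS : T_PRS) (hODE : T_ODE) (hODC : T_ODC)
    (hODS : T_ODS) (hSTM : T_STM) (hSTE : T_STE) (hNZ : T_NZ) (hNZD : T_NZD) (hNZP : T_NZP)
    (hISO : T_ISO) (hDIR : T_DIR) (u : ℕ → I1) (hu : IsMult u) :
    ∃ α : Measure X, IsProbabilityMeasure α ∧ Generic (fun n => ab (u n)) α ∧
      Pred u (star α) := by
  have habm : IsMult fun n => ab (u n) := by
    refine ⟨?_, fun m n hm hn h => ?_⟩
    · show |(u 1 : ℝ)| = 1
      rw [hu.1, abs_one]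
    · show |(u (m * n) : ℝ)| = |(u m : ℝ)| * |(u n : ℝ)|
      rw [hu.2 m n hm hn h, abs_mul]
  have hab0 : ∀ n, 0 ≤ ((fun n => ab (u n)) n : ℝ) := fun n => abs_nonneg (u n : ℝ)
  have hrap := hRAP _ habm hab0
  obtain ⟨α, hα, hg⟩ := hODG _ hrap
  have hpr := hPRS _ α hα hg
  have herg := hODE _ α hα hrap hg
  have hodo : IsOdometer shift α := ⟨herg, hODS α hα hpr (hODC _ α hα hrap hg)⟩
  refine ⟨α, hα, hg, (hSTM α hα).1, hSTE α hα herg, ⟨α, hα, hodo, hg, rfl⟩, fun hne => ?_⟩
  have hpos : ∀ n, 0 < n → 0 < ((fun n => ab (u n)) n : ℝ) := fun n hn =>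
    abs_pos.2 (hne n hn)
  rcases hNZ _ habm hpos with h | h
  · rw [hNZD _ α hα hg hab0 h]
    exact hDIR
  · exact hISO α hα hodo (hNZP _ α hα hg hab0 h)

theorem SS_mono (w : ℕ → ℝ) (hw : ∀ p, 0 ≤ w p) : Monotone (SS w) := by
  intro a b hab
  unfold SS
  apply Finset.sum_le_sum_of_subset_of_nonneg
  · intro p hp
    unfold pr at hp ⊢
    rw [mem_filter, mem_Icc] at hp ⊢
    exact ⟨⟨hp.1.1, hp.1.2.trans hab⟩, hp.2⟩
  · intro p _ _
    exact div_nonneg (hw p) (Nat.cast_nonneg _)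

theorem wt_nonneg {Ω : Type u} [MeasurableSpace Ω] (P : Measure Ω) [IsProbabilityMeasure P]
    (u : Ω → ℕ → I1) (p : ℕ) : 0 ≤ wt P u p := by
  unfold wt
  have := norm_integral_le_of_norm_le_const (μ := P) (f := fun ω => (u ω p : ℝ)) (C := 1)
    (Eventually.of_forall fun ω => by rw [Real.norm_eq_abs]; exact abs_I1 _)
  rw [Real.norm_eq_abs] at this
  simp at this
  linarith

theorem main (hKEY : T_KEY.{u}) (hAS : T_AS.{u}) (hSQ : T_SQ.{u}) (hSUB : T_SUB.{u})
    (hGST : T_GST) (hUNQ : T_UNQ)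
    (hRAP : T_RAP) (hODG : T_ODG) (hPRS : T_PRS) (hODE : T_ODE) (hODC : T_ODC)
    (hODS : T_ODS) (hSTM : T_STM) (hSTE : T_STE) (hNZ : T_NZ) (hNZD : T_NZD) (hNZP : T_NZP)
    (hISO : T_ISO) (hDIR : T_DIR) : T_MAIN.{u} := by
  classical
  intro Ω _ P _ u hu
  have hmeas := mono_meas u hu.meas
  have hSm := SS_mono (wt P u) (wt_nonneg P u)
  refine ⟨fun hS => ?_, fun δ hδ hS => ?_⟩
  · -- a common subsequence
    let ι : Type := Finset ℕ × (ℕ →₀ ℕ)
    let x : {i : ι // ∃ h ∈ i.1, Odd (i.2 h)} → ℕ → Ω → ℝ := fun i n ω =>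
      lavg n (mono (u ω) i.1.1 i.1.2)
    have hxm : ∀ i n, Measurable (x i n) := by
      intro i n
      show Measurable fun ω => lavg n (mono (u ω) i.1.1 i.1.2)
      unfold lavg
      refine Measurable.div_const ?_ _
      exact Finset.measurable_sum _ fun m _ => (hmeas _ _ m).div_const _
    have hxb : ∀ i n, ∃ C, ∀ ω, |x i n ω| ≤ C := by
      intro i n
      refine ⟨(∑ m ∈ Icc 1 n, (1 : ℝ) / m) / |Real.log n|, fun ω => ?_⟩
      show |lavg n (mono (u ω) i.1.1 i.1.2)| ≤ _
      unfold lavg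
      rw [abs_div]
      refine div_le_div_of_nonneg_right ?_ (abs_nonneg _)
      refine (Finset.abs_sum_le_sum_abs _ _).trans (Finset.sum_le_sum fun m _ => ?_)
      rw [abs_div, Nat.abs_cast]
      exact div_le_div_of_nonneg_right (mono_abs_le _ _ _ _) (Nat.cast_nonneg _)
    have hxs : ∀ i, Tendsto (fun n => ∫ ω, x i n ω ^ 2 ∂P) atTop (𝓝 0) := by
      intro i
      obtain ⟨C, c, hC, hc, hK⟩ := hKEY Ω P u hu i.1.1 i.1.2 i.2
      exact hSQ Ω P (fun ω => mono (u ω) i.1.1 i.1.2) (hmeas _ _)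
        (fun ω n => mono_abs_le _ _ _ _) (SS (wt P u)) C c hC hc hK hS
    obtain ⟨N, hN, hω⟩ := hSUB Ω P {i : ι // ∃ h ∈ i.1, Odd (i.2 h)} x hxm hxb hxs
    filter_upwards [hω] with ω hω
    obtain ⟨α, hα, hg, hP⟩ := pred_of hRAP hODG hPRS hODE hODC hODS hSTM hSTE hNZ hNZD hNZP hISO
      hDIR (u ω) (hu.mult ω)
    refine ⟨star α, hP, hP.prob, N, hN, hGST (u ω) α hα hg N hN fun H a hHa => ?_⟩
    obtain ⟨h₀, hh₀, hodd⟩ := hHa
    let b : ℕ →₀ ℕ := Finsupp.onFinset H (fun h => if h ∈ H then a h else 0) (by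
      intro h hh
      by_contra hc
      simp [hc] at hh)
    have hb : ∀ h ∈ H, b h = a h := by
      intro h hh
      show (if h ∈ H then a h else 0) = a h
      rw [if_pos hh]
    have := hω ⟨(H, b), h₀, hh₀, by
      show Odd (b h₀)
      rw [hb h₀ hh₀]
      exact hodd⟩
    have e : mono (u ω) H a = mono (u ω) H b := by
      funext n
      unfold mono
      exact Finset.prod_congr rfl fun h hh => by rw [hb h hh]
    rw [e]
    exact this
  · -- almost sure convergence along all `N`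
    have hS' : ∀ K : ℝ, ∀ᶠ N : ℕ in atTop,
        K ≤ SS (wt P u) N - SS (wt P u) ⌊Real.log (Real.log N) ^ (1 + δ)⌋₊ := by
      intro K
      filter_upwards [hS (K ⊔ 1), Filter.eventually_ge_atTop 3] with N hN hN3
      have hNl : 1 < Real.log N := by
        rw [Real.lt_log_iff_exp_lt (by positivity)]
        have h1 := Real.exp_one_lt_d9
        have h2 : (3 : ℝ) ≤ N := by exact_mod_cast hN3
        linarith
      have hll : 0 ≤ Real.log (Real.log N) := (Real.log_pos hNl).le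
      have hx : 0 ≤ Real.log (Real.log N) ^ (1 + δ) := Real.rpow_nonneg hll _
      set x := Real.log (Real.log N) ^ (1 + δ) with hxdef
      have hle : ⌊x⌋₊ ≤ N := by
        by_contra hcon
        rw [not_le] at hcon
        have h1 : ∑ p ∈ (Icc 1 N).filter (fun p : ℕ => p.Prime ∧ x < (p : ℝ)),
            (1 - |∫ ω, (u ω p : ℝ) ∂P|) / (p : ℝ) = 0 := by
          apply Finset.sum_eq_zero
          intro p hp
          rw [mem_filter, mem_Icc] at hp
          exfalso
          have h2 : (p : ℝ) ≤ x := by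
            have h3 : ((⌊x⌋₊ : ℕ) : ℝ) ≤ x := Nat.floor_le hx
            have h4 : (p : ℝ) ≤ (⌊x⌋₊ : ℕ) := by exact_mod_cast hp.1.2.trans hcon.le
            linarith
          linarith [hp.2.2]
        rw [h1] at hN
        have := le_max_right K 1
        linarith
      have hsum : SS (wt P u) N - SS (wt P u) ⌊x⌋₊ =
          ∑ p ∈ (Icc 1 N).filter (fun p : ℕ => p.Prime ∧ x < (p : ℝ)),
            (1 - |∫ ω, (u ω p : ℝ) ∂P|) / (p : ℝ) := by
        unfold SS
        have hsub : pr ⌊x⌋₊ ⊆ pr N := by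
          intro p hp
          unfold pr at hp ⊢
          rw [mem_filter, mem_Icc] at hp ⊢
          exact ⟨⟨hp.1.1, hp.1.2.trans hle⟩, hp.2⟩
        rw [← Finset.sum_sdiff hsub, add_sub_cancel_right]
        apply Finset.sum_congr _ fun p _ => rfl
        ext p
        unfold pr
        rw [Finset.mem_sdiff, mem_filter, mem_filter, mem_filter, mem_Icc, mem_Icc]
        constructor
        · rintro ⟨⟨h1, h2⟩, h3⟩
          refine ⟨h1, h2, ?_⟩
          by_contra hcon
          rw [not_lt] at hcon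
          exact h3 ⟨⟨h1.1, Nat.le_floor hcon⟩, h2⟩
        · rintro ⟨h1, h2, h3⟩
          refine ⟨⟨h1, h2⟩, ?_⟩
          rintro ⟨⟨-, h4⟩, -⟩
          have h5 := (Nat.le_floor_iff hx).1 h4
          linarith
      rw [hsum]
      exact (le_max_left K 1).trans hN
    have h1 : ∀ᵐ ω ∂P, ∀ i : Finset ℕ × (ℕ →₀ ℕ), (∃ h ∈ i.1, Odd (i.2 h)) →
        Tendsto (fun N => lavg N (mono (u ω) i.1 i.2)) atTop (𝓝 0) := by
      rw [ae_all_iff]
      intro i
      by_cases hi : ∃ h ∈ i.1, Odd (i.2 h)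
      · obtain ⟨C, c, hC, hc, hK⟩ := hKEY Ω P u hu i.1 i.2 hi
        filter_upwards [hAS Ω P (fun ω => mono (u ω) i.1 i.2) (hmeas _ _)
          (fun ω n => mono_abs_le _ _ _ _) (SS (wt P u)) hSm C c hC hc hK δ hδ hS'] with ω hω _
        exact hω
      · exact Eventually.of_forall fun ω h => absurd h hi
    filter_upwards [h1] with ω hω
    obtain ⟨α, hα, hg, hP⟩ := pred_of hRAP hODG hPRS hODE hODC hODS hSTM hSTE hNZ hNZD hNZP hISO
      hDIR (u ω) (hu.mult ω)
    have hG : Generic (u ω) (star α) := by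
      refine hGST (u ω) α hα hg id tendsto_id fun H a hHa => ?_
      obtain ⟨h₀, hh₀, hodd⟩ := hHa
      let b : ℕ →₀ ℕ := Finsupp.onFinset H (fun h => if h ∈ H then a h else 0) (by
        intro h hh
        by_contra hc
        simp [hc] at hh)
      have hb : ∀ h ∈ H, b h = a h := by
        intro h hh
        show (if h ∈ H then a h else 0) = a h
        rw [if_pos hh]
      have := hω (H, b) ⟨h₀, hh₀, by
        show Odd (b h₀)
        rw [hb h₀ hh₀]
        exact hodd⟩
      have e : mono (u ω) H a = mono (u ω) H b := by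
        funext n
        unfold mono
        exact Finset.prod_congr rfl fun h hh => by rw [hb h hh]
      rw [e]
      exact this
    exact ⟨star α, hP, hG, hUNQ (u ω) (star α) hP.prob hG⟩

end Pool.Agent.H92.RR
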