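import Pool.Agent.H89.MT.Targets

/-!
# MP_34b97f_an: random multiplicative functions with values in `[-1,1]`. Definitions
-/

open MeasureTheory ProbabilityTheory Filter Topology Finset
open scoped ENNReal

namespace Pool.Agent.H92.RR

open Pool.Agent.H89.MT

/-- A random multiplicative function with values in `[-1,1]`: the restrictions of `u` to the powers
of the different primes are independent. Their laws are arbitrary. -/
structure RandomReal {Ω : Type*} [MeasurableSpace Ω] (P : Measure Ω) (u : Ω → ℕ → I1) : Prop where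
  mult : ∀ ω, IsMult (u ω)
  meas : ∀ n, Measurable fun ω => u ω n
  indep : iIndepFun (fun (p : Nat.Primes) ω (k : ℕ) => u ω ((p : ℕ) ^ (k + 1))) P

/-- the left shift of `[-1,1]^ℤ` -/
def shift (x : X) : X := fun m => x (m + 1)

/-- the absolute value in `[-1,1]` -/
def ab (a : I1) : I1 := ⟨|(a : ℝ)|, by
  have h := abs_le.2 ⟨a.2.1, a.2.2⟩
  exact ⟨by linarith [abs_nonneg (a : ℝ)], h⟩⟩

/-- the product in `[-1,1]` -/
def mu (a b : I1) : I1 := ⟨(a : ℝ) * b, by
  have h1 : |(a : ℝ)| ≤ 1 := abs_le.2 ⟨a.2.1, a.2.2⟩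
  have h2 : |(b : ℝ)| ≤ 1 := abs_le.2 ⟨b.2.1, b.2.2⟩
  have h3 : |(a : ℝ) * b| ≤ 1 := by
    rw [abs_mul]
    exact mul_le_one₀ h1 (abs_nonneg _) h2
  exact abs_le.1 h3⟩

/-- the law of the sequence `(x_j e_j)`, where `x` has the law `α` and the `e_j` are independent
fair signs, independent of `x` -/
noncomputable def star (α : Measure X) : Measure X :=
  (α.prod bern).map fun z j => mu (z.1 j) (z.2 j)

/-- An odometer: an ergodic system such that the eigenfunctions whose eigenvalues are roots of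
unity span a dense subspace of `L²`. -/
def IsOdometer {Y : Type*} [MeasurableSpace Y] (T : Y → Y) (ν : Measure Y) : Prop :=
  Ergodic T ν ∧ ∀ F : Y → ℂ, MemLp F 2 ν → ∀ ε : ℝ, 0 < ε →
    ∃ (m : ℕ) (G : Fin m → Y → ℂ) (ζ : Fin m → ℂ),
      (∀ i, MemLp (G i) 2 ν ∧ (∃ q : ℕ, 0 < q ∧ ζ i ^ q = 1) ∧
        (fun y => G i (T y)) =ᵐ[ν] fun y => ζ i * G i y) ∧
      eLpNorm (fun y => F y - ∑ i, G i y) 2 ν ≤ ENNReal.ofReal ε

/-- Isomorphism of two measure-preserving systems `(Y, T, ν)` and `(Z, R, ρ)`. -/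
def Iso {Y Z : Type*} [MeasurableSpace Y] [MeasurableSpace Z] (T : Y → Y) (ν : Measure Y)
    (R : Z → Z) (ρ : Measure Z) : Prop :=
  ∃ (φ : Y → Z) (ψ : Z → Y), Measurable φ ∧ Measurable ψ ∧ ν.map φ = ρ ∧ ρ.map ψ = ν ∧
    (∀ᵐ y ∂ν, ψ (φ y) = y) ∧ (∀ᵐ z ∂ρ, φ (ψ z) = z) ∧ ∀ᵐ y ∂ν, φ (T y) = R (φ y)

/-- the product measure on `[-1,1]^ℤ` whose coordinates have the law `μ`; with the shift this is a
Bernoulli automorphism -/
noncomputable def bsh (μ : Measure I1) : Measure X := Measure.infinitePi fun _ : ℤ => μ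

/-- `(X, κ, S)` is isomorphic to the product of a Bernoulli automorphism and an odometer -/
def IsBO (κ : Measure X) : Prop :=
  ∃ (μ : Measure I1) (α : Measure X), IsProbabilityMeasure μ ∧ IsProbabilityMeasure α ∧
    IsOdometer shift α ∧
    Iso shift κ (fun z : X × X => (shift z.1, shift z.2)) ((bsh μ).prod α)

/-- The measure `κ` has the structure which Q1 predicts for the Furstenberg system of `u`: it is
ergodic; it is the law of `(x_j e_j)` where `x` has the law `α`, an odometer, for which `|u|` is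
generic, and the `e_j` are independent fair signs (so it is a factor of the product of the odometer
`α` and a Bernoulli automorphism); and if `u` has no zero, then it is isomorphic to the product of a
Bernoulli automorphism and an odometer. -/
structure Pred (u : ℕ → I1) (κ : Measure X) : Prop where
  prob : IsProbabilityMeasure κ
  erg : Ergodic shift κ
  fac : ∃ α : Measure X, IsProbabilityMeasure α ∧ IsOdometer shift α ∧
    Generic (fun n => ab (u n)) α ∧ κ = star α
  iso : (∀ n, 0 < n → (u n : ℝ) ≠ 0) → IsBO κ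

/-! ## Auxiliary notions -/

/-- monomials in the values of `u` -/
noncomputable def mono (u : ℕ → I1) (H : Finset ℕ) (a : ℕ → ℕ) (n : ℕ) : ℝ :=
  ∏ h ∈ H, (u (n + h) : ℝ) ^ a h

/-- the contribution of the prime `p` to a monomial -/
noncomputable def phi (u : ℕ → I1) (H : Finset ℕ) (a : ℕ → ℕ) (p n : ℕ) : ℝ :=
  ∏ h ∈ H, (u (p ^ (n + h).factorization p) : ℝ) ^ a h

/-- the monomial with the contributions of the primes `p > y`, `p ≤ M` replaced by their
expectations -/
noncomputable def cond {Ω : Type*} [MeasurableSpace Ω] (P : Measure Ω) (u : Ω → ℕ → I1)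
    (H : Finset ℕ) (a : ℕ → ℕ) (y M n : ℕ) (ω : Ω) : ℝ :=
  (∏ p ∈ (pr M).filter (· ≤ y), phi (u ω) H a p n) *
    ∏ p ∈ (pr M).filter (y < ·), ∫ ω', phi (u ω') H a p n ∂P

/-- the product of the numbers `n + h` -/
def PP (H : Finset ℕ) (n : ℕ) : ℕ := ∏ h ∈ H, (n + h)

/-- rational almost periodicity, for logarithmic averages -/
def RAP (u : ℕ → I1) : Prop := ∀ ε : ℝ, 0 < ε → ∃ (q : ℕ) (Q : ℤ → I1), 0 < q ∧
  (∀ m, Q (m + q) = Q m) ∧ ∀ᶠ N : ℕ in atTop, lavg N (fun n => |(u n : ℝ) - Q n|) ≤ ε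

end Pool.Agent.H92.RR
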